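import Pool.Agent.H89.HL.Unc

set_option autoImplicit false

/-!
# Chow groups of smooth hypersurfaces of arbitrary degree which contain a linear subspace

Let `X` be a smooth hypersurface of degree `k + 3` over a field of characteristic zero which contains
a linear subspace of dimension `r`. Then the rational Chow group of cycles of codimension `i` of `X`
is generated by the class of a linear section if `r` is at least the number `bound k i`, which is
`2 i + 1` for cubics, `2 i ^ 2 + 7 i + 3` for quartics, and which is defined by a recursion for all
degrees. There is no condition on the dimension of `X`.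

The proof uses the projection from the linear subspace. The fibres are hypersurfaces of degree
`k + 2` in projective spaces of dimension `r + 1`. By the smoothness of `X` the fibre over a point
with closure of codimension `c` has a smooth linear section of codimension at most `c`. Over the
algebraic closure of the residue field the fibres contain linear subspaces of large dimension, and
one can argue by induction on the degree.
-/

namespace Pool.Agent.Results.MP_4be043_ag.AllDegreesLinearSubspace

open MvPolynomial Pool.Agent.W5h86.HC

/-- The bound for the dimension of the linear subspace: `bound 0 i = 2 i + 1` for cubics and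
`bound (k + 1) i = b + (b + k + 2 choose k + 2) - 1`, `b = bound k i`, for the degree `k + 4`. -/
def bound : ℕ → ℕ → ℕ
  | 0, i => 2 * i + 1
  | k + 1, i => bound k i + (bound k i + (k + 2)).choose (k + 2) - 1

lemma bound_eq (k i : ℕ) : Pool.Agent.H89.HL.bd k i = bound k i + 2 := by
  induction k with
  | zero => rfl
  | succ k ih =>
    have h1 : 0 < (bound k i + (k + 2)).choose (k + 2) := Nat.choose_pos (by omega)
    simp only [Pool.Agent.H89.HL.bd, bound]
    rw [ih, Nat.add_sub_cancel]
    omega

lemma bound_one (i : ℕ) : bound 1 i = 2 * i ^ 2 + 7 * i + 3 := by
  have h1 : (2 * i + 1 + 2).choose 2 = (2 * i + 3) * (i + 1) := by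
    rw [Nat.choose_two_right]
    have h2 : 2 * i + 1 + 2 - 1 = 2 * (i + 1) := by omega
    rw [h2, ← mul_assoc, mul_comm _ 2, mul_assoc, Nat.mul_div_cancel_left _ (by norm_num)]
  have h2 : bound 1 i = 2 * i + 1 + (2 * i + 1 + 2).choose 2 - 1 := rfl
  rw [h2, h1]
  have h3 : 2 * i + 1 + (2 * i + 3) * (i + 1) = 2 * i ^ 2 + 7 * i + 3 + 1 := by ring
  omega

/-- **Smooth hypersurfaces which contain a linear subspace.** `X` is the smooth hypersurface `F = 0`
of degree `k + 3` in the projective space with `N` homogeneous coordinates, and `Λ` is a linear
subspace of the affine cone of `X` with the dimension `r + 1`. If `bound k i ≤ r` then every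
subvariety of codimension `i` of `X` is a rational multiple of any linear section of codimension
`i` modulo rational equivalence. For quartics the condition is `2 i ^ 2 + 7 i + 3 ≤ r`. -/
theorem result {K : Type} [Field K] [CharZero K] {N r i : ℕ} (F : MvPolynomial (Fin N) K)
    (hs : Smooth F) (Λ : Submodule K (Fin N → K)) (hΛ : Module.finrank K Λ = r + 1)
    (hΛF : ∀ x ∈ Λ, eval x F = 0) :
    (F.IsHomogeneous 4 → 2 * i ^ 2 + 7 * i + 3 ≤ r → LinSpan i F) ∧
    ∀ k, F.IsHomogeneous (k + 3) → bound k i ≤ r → LinSpan i F := by
  have key : ∀ k, F.IsHomogeneous (k + 3) → bound k i ≤ r → LinSpan i F := by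
    intro k hF hi
    refine Pool.Agent.H89.HL.unconditional hF hs Λ hΛ hΛF ?_
    rw [bound_eq]
    omega
  refine ⟨fun hF hi => key 1 hF ?_, key⟩
  rw [bound_one]
  exact hi

end Pool.Agent.Results.MP_4be043_ag.AllDegreesLinearSubspace
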