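import Pool.Agent.H89.HL.Chain

set_option autoImplicit false

/-!
# Hartshorne's conjecture in one degree implies cases of the conjecture in all larger degrees

Let `i` be given and suppose that, for `1 ≤ j ≤ i`, the rational Chow group of codimension `j` cycles
of every smooth complex hypersurface of degree `d + 2` and of dimension exactly `2 j + 1` is
generated by the class of a linear section (these are the boundary cases of Hartshorne's conjecture
in the degree `d + 2`). Then the rational Chow group of codimension `i` cycles is generated by the
class of a linear section for all smooth hypersurfaces of degree `d + 3` which contain a linear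
subspace of dimension greater than `2 i`, and, more generally, for all smooth hypersurfaces of degree
`d + k + 3` which contain a linear subspace of dimension at least `bound d k i`.
-/

namespace Pool.Agent.Results.MP_4be043_ag.FromDegreeToDegree

open MvPolynomial Pool.Agent.W5h86.HC

/-- The bound for the dimension of the linear subspace: `bound d 0 i = 2 i + 1` and
`bound d (k + 1) i = b + (b + d + k + 2 choose d + k + 2) - 1`, `b = bound d k i`. -/
def bound (d : ℕ) : ℕ → ℕ → ℕ
  | 0, i => 2 * i + 1
  | k + 1, i => bound d k i + (bound d k i + (d + k + 2)).choose (d + k + 2) - 1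

lemma bound_eq (d k i : ℕ) : Pool.Agent.H89.HL.bdd d k i = bound d k i + 2 := by
  induction k with
  | zero => rfl
  | succ k ih =>
    have h1 : 0 < (bound d k i + (d + k + 2)).choose (d + k + 2) := Nat.choose_pos (by omega)
    simp only [Pool.Agent.H89.HL.bdd, bound]
    rw [ih, Nat.add_sub_cancel]
    omega

/-- **From the degree `d + 2` to all larger degrees.** -/
theorem result (d i : ℕ)
    (h : ∀ j, 1 ≤ j → j ≤ i → ∀ G : MvPolynomial (Fin (2 * j + 3)) ℂ,
      G.IsHomogeneous (d + 2) → Smooth G → LinSpan j G)
    (K : Type) [Field K] [CharZero K] (hK : Cardinal.mk K = Cardinal.continuum) (N r k : ℕ)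
    (F : MvPolynomial (Fin N) K) (hF : F.IsHomogeneous (d + k + 3)) (hs : Smooth F)
    (Λ : Submodule K (Fin N → K)) (hΛ : Module.finrank K Λ = r + 1)
    (hΛF : ∀ x ∈ Λ, eval x F = 0) (hr : bound d k i ≤ r) : LinSpan i F := by
  refine Pool.Agent.H89.HL.degree_chain h hK hF hs Λ hΛ hΛF ?_
  rw [bound_eq]
  omega

end Pool.Agent.Results.MP_4be043_ag.FromDegreeToDegree
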